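import Mathlib
import Pool.Agent.X19.SS.Stm

/-!
Parts D1 and D3 for MP_467638_an: second moment and inverse second moment of the distance of a
Gaussian vector to a span.
-/

set_option autoImplicit false

open MeasureTheory ProbabilityTheory Filter Topology
open scoped ENNReal

namespace Pool.Agent.X115.SS

open Pool.Agent.X19.SS

noncomputable section

variable {K : Type} [RCLike K] {ι : Type} [Fintype ι]

lemma nsq_eq (x : ι → K) : nsq x = ‖(WithLp.toLp 2 x : EuclideanSpace K ι)‖ₑ ^ 2 := by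
  have h : ‖(WithLp.toLp 2 x : EuclideanSpace K ι)‖ ^ 2 = ∑ i, ‖x i‖ ^ 2 := by
    rw [EuclideanSpace.norm_sq_eq]
  rw [nsq, ← ofReal_norm, ← ENNReal.ofReal_pow (norm_nonneg _), h,
    ENNReal.ofReal_sum_of_nonneg fun i _ => by positivity]
  refine Finset.sum_congr rfl fun i _ => ?_
  rw [← ofReal_norm, ENNReal.ofReal_pow (norm_nonneg _)]

/-- the span -/
def Wc {m : ℕ} (S : Fin m → ι → K) : Submodule K (EuclideanSpace K ι) :=
  Submodule.span K (Set.range fun k => (WithLp.toLp 2 (S k) : EuclideanSpace K ι))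

/-- the span over the reals -/
def Wr {m : ℕ} (S : Fin m → ι → K) : Submodule ℝ (EuclideanSpace K ι) :=
  (Wc S).restrictScalars ℝ

/-- the orthogonal projection to the real orthogonal complement -/
def PF {m : ℕ} (S : Fin m → ι → K) : EuclideanSpace K ι → (Wr S)ᗮ :=
  fun x => (Wr S)ᗮ.orthogonalProjection x

lemma dist2_eq {m : ℕ} (S : Fin m → ι → K) (s : ι → K) :
    dist2 S s = ‖PF S (WithLp.toLp 2 s)‖ₑ ^ 2 := by
  have hmem : ∀ v : Fin m → K,
      (∑ k, v k • (WithLp.toLp 2 (S k) : EuclideanSpace K ι)) ∈ Wr S := by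
    intro v
    show _ ∈ Wc S
    exact Submodule.sum_mem _ fun k _ => Submodule.smul_mem _ _ (Submodule.subset_span ⟨k, rfl⟩)
  have hto : ∀ v : Fin m → K, (WithLp.toLp 2 (s + ∑ k, v k • S k) : EuclideanSpace K ι) =
      WithLp.toLp 2 s + ∑ k, v k • (WithLp.toLp 2 (S k) : EuclideanSpace K ι) := by
    intro v
    rw [WithLp.toLp_add, WithLp.toLp_sum]
    simp [WithLp.toLp_smul]
  have hP : ∀ w ∈ Wr S, PF S w = 0 := by
    intro w hw
    apply Submodule.orthogonalProjection_mem_subspace_orthogonalComplement_eq_zero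
    exact Submodule.le_orthogonal_orthogonal _ hw
  have hPadd : ∀ x y, PF S (x + y) = PF S x + PF S y := fun x y => map_add _ x y
  apply le_antisymm
  · set x : EuclideanSpace K ι := WithLp.toLp 2 s with hx
    have h1 : x - PF S x ∈ Wr S := by
      have h2 : x - PF S x ∈ (Wr S)ᗮᗮ := Submodule.sub_starProjection_mem_orthogonal x
      rwa [Submodule.orthogonal_orthogonal] at h2
    have h3 : x - PF S x ∈ Wc S := h1
    rw [Wc, Submodule.mem_span_range_iff_exists_fun] at h3
    obtain ⟨c, hc⟩ := h3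
    refine (iInf_le _ (fun k => -c k)).trans (le_of_eq ?_)
    rw [nsq_eq, hto]
    have e : (WithLp.toLp 2 s + ∑ k, (-c k) • (WithLp.toLp 2 (S k) : EuclideanSpace K ι)) =
        (PF S x : EuclideanSpace K ι) := by
      have : ∑ k, (-c k) • (WithLp.toLp 2 (S k) : EuclideanSpace K ι) = -(x - PF S x) := by
        rw [← hc, ← Finset.sum_neg_distrib]
        exact Finset.sum_congr rfl fun k _ => neg_smul _ _
      rw [this, ← hx]
      abel
    rw [e]
    rfl
  · refine le_iInf fun v => ?_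
    rw [nsq_eq, hto]
    have e : PF S (WithLp.toLp 2 s) = PF S (WithLp.toLp 2 s +
        ∑ k, v k • (WithLp.toLp 2 (S k) : EuclideanSpace K ι)) := by
      rw [hPadd, hP _ (hmem v), add_zero]
    rw [e]
    refine pow_le_pow_left₀ bot_le ?_ 2
    rw [← ofReal_norm, ← ofReal_norm]
    exact ENNReal.ofReal_le_ofReal (Submodule.norm_orthogonalProjection_apply_le _ _)

lemma finrank_F {m : ℕ} {S : Fin m → ι → K} (hS : LinearIndependent K S) :
    Module.finrank ℝ K * m + Module.finrank ℝ (Wr S)ᗮ =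
      Module.finrank ℝ K * Fintype.card ι := by
  have h1 : Module.finrank K (Wc S) = m := by
    have h2 : LinearIndependent K fun k => (WithLp.toLp 2 (S k) : EuclideanSpace K ι) := by
      have := hS.map' ((WithLp.linearEquiv 2 K (ι → K)).symm.toLinearMap)
        (LinearEquiv.ker _)
      exact this
    rw [Wc, finrank_span_eq_card h2, Fintype.card_fin]
  have h3 : Module.finrank ℝ (Wr S) = Module.finrank ℝ K * m := by
    have := Module.finrank_mul_finrank ℝ K (Wc S)
    rw [h1] at this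
    exact this.symm
  have h4 : Module.finrank ℝ (EuclideanSpace K ι) = Module.finrank ℝ K * Fintype.card ι := by
    have := Module.finrank_mul_finrank ℝ K (EuclideanSpace K ι)
    rw [finrank_euclideanSpace] at this
    exact this.symm
  have h5 := Submodule.finrank_add_finrank_orthogonal (Wr S)
  rw [h3, h4] at h5
  exact h5

variable [MeasurableSpace K] [BorelSpace K]

lemma law (hA1 : S_A1) {m : ℕ} (S : Fin m → ι → K) :
    (stdGaussian (EuclideanSpace K ι)).map (PF S) = stdGaussian (Wr S)ᗮ := by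
  refine hA1 (EuclideanSpace K ι) (Wr S)ᗮ (PF S) (fun t => (t : EuclideanSpace K ι)) ?_ ?_ ?_
  · exact ((Wr S)ᗮ.orthogonalProjection.continuous).measurable
  · intro x t
    exact Submodule.inner_orthogonalProjection_eq_of_mem_right t x
  · intro t
    rfl

lemma transfer (hA1 : S_A1) (hB1 : S_B1) {m : ℕ} (S : Fin m → ι → K) {φ : ℝ≥0∞ → ℝ≥0∞}
    (hφ : Measurable φ) :
    ∫⁻ s, φ (dist2 S s) ∂(gK K ι) = ∫⁻ y : (Wr S)ᗮ, φ (‖y‖ₑ ^ 2) ∂(stdGaussian (Wr S)ᗮ) := by
  have hPm : Measurable (PF S) := ((Wr S)ᗮ.orthogonalProjection.continuous).measurable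
  rw [← law hA1 S, lintegral_map (by fun_prop) hPm, ← hB1 K ι,
    lintegral_map (by fun_prop) (by fun_prop)]
  simp only [dist2_eq]

theorem t_D1 (hA1 : S_A1) (hA3 : S_A3) (hB1 : S_B1) : S_D1 := by
  intro K _ _ _ m l S hS hlt
  have h1 := finrank_F hS
  rw [Fintype.card_fin] at h1
  rw [transfer hA1 hB1 S (φ := fun x => x⁻¹) measurable_inv]
  have h2 : 2 < Module.finrank ℝ (Wr S)ᗮ := by omega
  refine le_trans (le_of_eq ?_) (hA3 (Wr S)ᗮ h2)
  congr 3
  have h3 : (Module.finrank ℝ K : ℝ) * m + Module.finrank ℝ (Wr S)ᗮ =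
      Module.finrank ℝ K * l := by exact_mod_cast h1
  linarith

theorem t_D3 (hA1 : S_A1) (hA2 : S_A2) (hB1 : S_B1) : S_D3 := by
  intro K _ _ _ m ι _ S hS hle
  have h1 := finrank_F hS
  have := transfer hA1 hB1 S (φ := id) measurable_id
  simp only [id] at this
  rw [this, hA2 (Wr S)ᗮ]
  have h2 : Module.finrank ℝ (Wr S)ᗮ = Module.finrank ℝ K * (Fintype.card ι - m) := by
    rw [Nat.mul_sub]
    omega
  rw [h2]
  push_cast
  rfl

end

end Pool.Agent.X115.SS
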